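import Pool.Agent.H480Z.MonsterAux

set_option autoImplicit false

namespace Pool.Agent.Results.MP_ddde08_al.FinGenTargets

open MeasureTheory Filter Pool.Agent.H480Z.Monster

/-- Gromov's random monster group (labels in `T ^ j`, over an expander family of finite connected
graphs of maximal degree at most `d`) is super-rigid with respect to every countable group, in
particular every finitely generated group. -/
theorem result (d k j : ℕ) (hk : 2 ≤ k) (hj : 1 ≤ j)
    (V : ℕ → Type) [∀ n, Finite (V n)] (Ω : ∀ n, SimpleGraph (V n))
    (hconn : ∀ n, (Ω n).Connected) (hdeg : ∀ n v, ((Ω n).neighborSet v).ncard ≤ d)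
    (hsize : Tendsto (fun n => Nat.card (V n)) atTop atTop)
    (c : ℝ) (hc : 0 < c) (hexp : ∀ n, CheegerAtLeast (Ω n) c)
    (G : Type*) [Group G] [Countable G] :
    ∀ᵐ α ∂(labelMeasure (prodLabels k j hk) Ω :
        Measure (∀ n, Labelling (prodLabels k j hk) (Ω n))),
      ∀ φ : monsterGroup α →* G, Finite φ.range :=
  superrigid (spread_prod hk hj) (infinite_cyc_of_expander hconn hdeg hsize hc hexp) G

end Pool.Agent.Results.MP_ddde08_al.FinGenTargets
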